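import Mathlib

/-!
# Chebyshev's method: the pointwise identity and the sum of `Λ(q) / q`
-/

set_option autoImplicit false

namespace Pool.Agent.U744.PF

open Finset ArithmeticFunction

lemma mert (N : ℕ) (hN : 1 ≤ N) : ∑ q ∈ Icc 1 N, vonMangoldt q / q ≤ Real.log N + 6 := by
  have hN0 : (0 : ℝ) < N := by exact_mod_cast hN
  have h1 : ∑ n ∈ Icc 1 N, Real.log n = ∑ q ∈ Icc 1 N, vonMangoldt q * ((N / q : ℕ) : ℝ) := by
    have h2 : ∀ n ∈ Icc 1 N, Real.log n = ∑ q ∈ Icc 1 N, if q ∣ n then vonMangoldt q else 0 := by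
      intro n hn
      rw [mem_Icc] at hn
      rw [← vonMangoldt_sum, ← Finset.sum_filter]
      apply sum_congr _ (fun _ _ => rfl)
      ext q
      rw [Nat.mem_divisors, mem_filter, mem_Icc]
      constructor
      · rintro ⟨h3, h4⟩
        exact ⟨⟨Nat.pos_of_dvd_of_pos h3 (by omega), (Nat.le_of_dvd (by omega) h3).trans hn.2⟩, h3⟩
      · rintro ⟨_, h3⟩
        exact ⟨h3, by omega⟩
    rw [sum_congr rfl h2, sum_comm]
    apply sum_congr rfl
    intro q _
    rw [← sum_filter, sum_const, nsmul_eq_mul, mul_comm]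
    congr 2
    rw [← Nat.Ioc_filter_dvd_card_eq_div]
    congr 1
  have h2 : ∑ n ∈ Icc 1 N, Real.log n ≤ N * Real.log N := by
    calc ∑ n ∈ Icc 1 N, Real.log n ≤ ∑ n ∈ Icc 1 N, Real.log N := by
          apply sum_le_sum
          intro n hn
          rw [mem_Icc] at hn
          exact Real.log_le_log (by exact_mod_cast hn.1) (by exact_mod_cast hn.2)
      _ = N * Real.log N := by
          rw [sum_const, Nat.card_Icc, nsmul_eq_mul, Nat.add_sub_cancel]
  have h3 : ∑ q ∈ Icc 1 N, vonMangoldt q ≤ 6 * N := by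
    have h4 := Chebyshev.psi_le_const_mul_self (x := (N : ℝ)) hN0.le
    have h5 : Chebyshev.psi (N : ℝ) = ∑ q ∈ Icc 1 N, vonMangoldt q := by
      unfold Chebyshev.psi
      rw [Nat.floor_natCast]
      rfl
    rw [h5] at h4
    refine h4.trans ?_
    have h6 : Real.log 4 < 2 := by
      have h7 : Real.log 4 = 2 * Real.log 2 := by
        rw [show (4 : ℝ) = 2 ^ 2 by norm_num, Real.log_pow]; norm_num
      have := Real.log_two_lt_d9
      linarith
    nlinarith
  have h4 : (N : ℝ) * ∑ q ∈ Icc 1 N, vonMangoldt q / q - ∑ q ∈ Icc 1 N, vonMangoldt q ≤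
      ∑ q ∈ Icc 1 N, vonMangoldt q * ((N / q : ℕ) : ℝ) := by
    rw [mul_sum, ← sum_sub_distrib]
    apply sum_le_sum
    intro q hq
    rw [mem_Icc] at hq
    have hq0 : (0 : ℝ) < q := by exact_mod_cast hq.1
    have h5 : (N : ℝ) / q - 1 ≤ ((N / q : ℕ) : ℝ) := by
      have := Nat.lt_floor_add_one ((N : ℝ) / q)
      rw [Nat.floor_div_eq_div] at this
      linarith
    have h6 := mul_le_mul_of_nonneg_left h5 (vonMangoldt_nonneg (n := q))
    calc (N : ℝ) * (vonMangoldt q / q) - vonMangoldt q = vonMangoldt q * ((N : ℝ) / q - 1) := by ring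
      _ ≤ _ := h6
  rw [← h1] at h4
  have h5 : (N : ℝ) * ∑ q ∈ Icc 1 N, vonMangoldt q / q ≤ N * (Real.log N + 6) := by
    calc (N : ℝ) * ∑ q ∈ Icc 1 N, vonMangoldt q / q ≤ N * Real.log N + 6 * N := by linarith
      _ = _ := by ring
  exact le_of_mul_le_mul_left h5 hN0

/-- If `n` has no prime factor above `D` and is not divisible by the square of an integer between
`y` and `D`, where `y ^ 4 ≤ D`, then all prime powers which divide `n` are at most `D`. -/
lemma pp_le {n p k M : ℕ} {D y : ℝ} (hy : 1 < y) (hyD : y ^ 4 ≤ D) (hM : n.Coprime M)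
    (hbig : ∀ p : ℕ, p.Prime → p ∣ n → (p : ℝ) ≤ D)
    (hsq : ∀ a : ℕ, a.Coprime M → y ≤ a → (a : ℝ) ≤ D → ¬ a ^ 2 ∣ n)
    (hp : p.Prime) (hk : 1 ≤ k) (h : p ^ k ∣ n) : ((p ^ k : ℕ) : ℝ) ≤ D := by
  by_contra hcon
  push Not at hcon
  have hy0 : 0 < y := by linarith
  have hpn : p ∣ n := (dvd_pow_self p (by omega)).trans h
  have hpD := hbig p hp hpn
  have hp1 : (1 : ℝ) < p := by exact_mod_cast hp.one_lt
  have hk2 : 2 ≤ k := by
    by_contra h2
    have : k = 1 := by omega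
    subst this
    rw [pow_one] at hcon
    linarith
  have hyD1 : y ≤ D := by
    have : y ≤ y ^ 4 := le_self_pow₀ hy.le (by norm_num)
    linarith
  have hex : ∃ e : ℕ, y ≤ ((p ^ e : ℕ) : ℝ) := ⟨k, by linarith⟩
  classical
  obtain ⟨e, he⟩ : ∃ e, e = Nat.find hex := ⟨_, rfl⟩
  have he1 : y ≤ ((p ^ e : ℕ) : ℝ) := by rw [he]; exact Nat.find_spec hex
  have he0 : e ≠ 0 := by
    rintro rfl
    rw [pow_zero, Nat.cast_one] at he1
    linarith
  obtain ⟨f, rfl⟩ : ∃ f, e = f + 1 := ⟨e - 1, by omega⟩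
  have hf : ((p ^ f : ℕ) : ℝ) < y := by
    have := Nat.find_min hex (m := f) (by rw [← he]; omega)
    push Not at this
    exact this
  have hdvd : ∀ j : ℕ, 2 * j ≤ k → (p ^ j) ^ 2 ∣ n := by
    intro j hj
    rw [← pow_mul, mul_comm j 2]
    exact (pow_dvd_pow p hj).trans h
  have hcop : ∀ j : ℕ, 2 * j ≤ k → (p ^ j).Coprime M := by
    intro j hj
    exact Nat.Coprime.coprime_dvd_left ((pow_dvd_pow p (by omega : j ≤ k)).trans h) hM
  rcases Nat.eq_zero_or_pos f with rfl | hf0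
  · rw [zero_add] at he1
    have h1 := hdvd 1 (by omega)
    refine hsq (p ^ 1) (hcop 1 (by omega)) he1 ?_ h1
    rw [pow_one]
    exact hpD
  · have hpy : (p : ℝ) < y := by
      refine lt_of_le_of_lt ?_ hf
      exact_mod_cast Nat.le_self_pow (by omega) p
    have h1 : ((p ^ (f + 1) : ℕ) : ℝ) < y ^ 2 := by
      rw [pow_succ]
      push_cast at hf ⊢
      calc (p : ℝ) ^ f * p < y * y := mul_lt_mul'' hf hpy (by positivity) (by positivity)
        _ = y ^ 2 := by ring
    have h2 : (((p ^ (f + 1)) ^ 2 : ℕ) : ℝ) < y ^ 4 := by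
      push_cast at h1 ⊢
      calc ((p : ℝ) ^ (f + 1)) ^ 2 < (y ^ 2) ^ 2 := pow_lt_pow_left₀ h1 (by positivity) (by norm_num)
        _ = y ^ 4 := by ring
    have h3 : (p ^ (f + 1)) ^ 2 < p ^ k := by
      have : (((p ^ (f + 1)) ^ 2 : ℕ) : ℝ) < ((p ^ k : ℕ) : ℝ) := by linarith
      exact_mod_cast this
    have h4 : 2 * (f + 1) ≤ k := by
      rw [← pow_mul] at h3
      have := (Nat.pow_lt_pow_iff_right hp.one_lt).1 h3
      omega
    refine hsq (p ^ (f + 1)) (hcop _ h4) he1 ?_ (hdvd _ h4)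
    have : y ^ 2 ≤ y ^ 4 := pow_le_pow_right₀ hy.le (by norm_num)
    linarith

/-- the logarithm of such a number -/
lemma log_eq {n M : ℕ} {D y : ℝ} (hn : 0 < n) (hy : 1 < y) (hyD : y ^ 4 ≤ D) (hM : n.Coprime M)
    (hbig : ∀ p : ℕ, p.Prime → p ∣ n → (p : ℝ) ≤ D)
    (hsq : ∀ a : ℕ, a.Coprime M → y ≤ a → (a : ℝ) ≤ D → ¬ a ^ 2 ∣ n) :
    Real.log n = ∑ q ∈ (Icc 1 ⌊D⌋₊).filter (fun q => q.Coprime M),
      if q ∣ n then vonMangoldt q else 0 := by
  rw [← vonMangoldt_sum, ← Finset.sum_filter]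
  symm
  apply Finset.sum_subset
  · intro q hq
    rw [mem_filter] at hq
    rw [Nat.mem_divisors]
    exact ⟨hq.2, by omega⟩
  · intro q hq hq2
    rw [Nat.mem_divisors] at hq
    by_contra h
    have hpp : IsPrimePow q := by
      by_contra h2
      exact h (vonMangoldt_eq_zero_iff.2 h2)
    rw [isPrimePow_nat_iff] at hpp
    obtain ⟨p, k, hp, hk, rfl⟩ := hpp
    have h1 := pp_le hy hyD hM hbig hsq hp hk hq.1
    apply hq2
    rw [mem_filter, mem_filter, mem_Icc]
    exact ⟨⟨⟨Nat.pos_of_dvd_of_pos hq.1 hn, Nat.le_floor h1⟩,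
      Nat.Coprime.coprime_dvd_left hq.1 hM⟩, hq.1⟩

/-- **Chebyshev's method.** A family of at most `X` integers `v i`, coprime to `M`, at least `W`, with
level of distribution `D`: at most `(log D + 6 + log D * R) X / log W` of those which are not
divisible by the square of an integer between `y` and `D` have no prime factor above `D`. -/
theorem cheb {ι : Type} [Fintype ι] (v : ι → ℕ) {M : ℕ} {D y X R W : ℝ} (hy : 1 < y)
    (hyD : y ^ 4 ≤ D) (hX : 0 ≤ X) (hW : 1 < W) (hv : ∀ i, W ≤ v i) (hM : ∀ i, (v i).Coprime M)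
    (hBV : ∑ q ∈ (Icc 1 ⌊D⌋₊).filter (fun q => q.Coprime M),
      |(((univ.filter fun i => q ∣ v i).card : ℕ) : ℝ) - X / q| ≤ X * R)
    (S : Finset ι) (hS1 : ∀ i ∈ S, ∀ p : ℕ, p.Prime → p ∣ v i → (p : ℝ) ≤ D)
    (hS2 : ∀ i ∈ S, ∀ a : ℕ, a.Coprime M → y ≤ a → (a : ℝ) ≤ D → ¬ a ^ 2 ∣ v i) :
    (S.card : ℝ) * Real.log W ≤ X * (Real.log D + 6 + Real.log D * R) := by
  classical
  have hW0 : 0 < W := by linarith
  have hyD1 : 1 < D := by
    have : y ≤ y ^ 4 := le_self_pow₀ hy.le (by norm_num)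
    linarith
  have hD1 : 1 ≤ ⌊D⌋₊ := Nat.le_floor (by rw [Nat.cast_one]; exact hyD1.le)
  have hfl : ((⌊D⌋₊ : ℕ) : ℝ) ≤ D := Nat.floor_le (by linarith)
  have hlogD : 0 ≤ Real.log D := Real.log_nonneg hyD1.le
  obtain ⟨Q, hQ⟩ : ∃ Q, Q = (Icc 1 ⌊D⌋₊).filter (fun q => q.Coprime M) := ⟨_, rfl⟩
  have h1 : (S.card : ℝ) * Real.log W ≤ ∑ i ∈ S, Real.log (v i) := by
    rw [← nsmul_eq_mul]
    apply card_nsmul_le_sum
    intro i _
    exact Real.log_le_log hW0 (hv i)
  have h2 : ∑ i ∈ S, Real.log (v i) ≤ ∑ i : ι, ∑ q ∈ Q, if q ∣ v i then vonMangoldt q else 0 := by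
    refine le_trans (le_of_eq ?_) (sum_le_sum_of_subset_of_nonneg (subset_univ S) ?_)
    · apply sum_congr rfl
      intro i hi
      rw [hQ]
      refine log_eq ?_ hy hyD (hM i) (hS1 i hi) (hS2 i hi)
      have : (0 : ℝ) < v i := by linarith [hv i]
      exact_mod_cast this
    · intro i _ _
      apply sum_nonneg
      intro q _
      split_ifs
      · exact vonMangoldt_nonneg
      · exact le_rfl
  have h3 : ∑ i : ι, ∑ q ∈ Q, (if q ∣ v i then vonMangoldt q else 0) =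
      ∑ q ∈ Q, vonMangoldt q * (((univ.filter fun i => q ∣ v i).card : ℕ) : ℝ) := by
    rw [sum_comm]
    apply sum_congr rfl
    intro q _
    rw [← sum_filter, sum_const, nsmul_eq_mul, mul_comm]
  have h4 : ∑ q ∈ Q, vonMangoldt q * (((univ.filter fun i => q ∣ v i).card : ℕ) : ℝ) ≤
      ∑ q ∈ Q, (X * (vonMangoldt q / q) +
        Real.log D * |(((univ.filter fun i => q ∣ v i).card : ℕ) : ℝ) - X / q|) := by
    apply sum_le_sum
    intro q hq
    rw [hQ, mem_filter, mem_Icc] at hq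
    have hq1 : (1 : ℝ) ≤ q := by exact_mod_cast hq.1.1
    have hqD : (q : ℝ) ≤ D := le_trans (by exact_mod_cast hq.1.2) hfl
    have h5 : vonMangoldt q ≤ Real.log D :=
      vonMangoldt_le_log.trans (Real.log_le_log (by linarith) hqD)
    have h6 := le_abs_self ((((univ.filter fun i => q ∣ v i).card : ℕ) : ℝ) - X / q)
    have h7 := mul_le_mul_of_nonneg_left h6 (vonMangoldt_nonneg (n := q))
    have h8 := mul_le_mul_of_nonneg_right h5
      (abs_nonneg ((((univ.filter fun i => q ∣ v i).card : ℕ) : ℝ) - X / q))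
    calc vonMangoldt q * (((univ.filter fun i => q ∣ v i).card : ℕ) : ℝ) =
        X * (vonMangoldt q / q) +
          vonMangoldt q * ((((univ.filter fun i => q ∣ v i).card : ℕ) : ℝ) - X / q) := by ring
      _ ≤ _ := by linarith
  have h5 : ∑ q ∈ Q, (X * (vonMangoldt q / q) +
        Real.log D * |(((univ.filter fun i => q ∣ v i).card : ℕ) : ℝ) - X / q|) ≤
      X * (Real.log D + 6) + Real.log D * (X * R) := by
    rw [sum_add_distrib, ← mul_sum, ← mul_sum]
    have h6 : ∑ q ∈ Q, vonMangoldt q / (q : ℝ) ≤ Real.log D + 6 := by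
      refine le_trans (sum_le_sum_of_subset_of_nonneg (by rw [hQ]; exact filter_subset _ _) ?_)
        ((mert _ hD1).trans ?_)
      · intro q _ _
        exact div_nonneg vonMangoldt_nonneg (by positivity)
      · have : (0 : ℝ) < ((⌊D⌋₊ : ℕ) : ℝ) := by exact_mod_cast hD1
        have := Real.log_le_log this hfl
        linarith
    rw [← hQ] at hBV
    exact add_le_add (mul_le_mul_of_nonneg_left h6 hX) (mul_le_mul_of_nonneg_left hBV hlogD)
  calc (S.card : ℝ) * Real.log W ≤ X * (Real.log D + 6) + Real.log D * (X * R) := by linarith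
    _ = _ := by ring

end Pool.Agent.U744.PF
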