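import Mathlib
import Pool.Agent.U744.PF.Cheb
import Pool.Agent.H476R2.Pal.BV2
import Pool.Agent.H503R2.PalQ7
import Pool.Agent.H187R2.PalT10

/-!
# Most decimal palindromes with the first digit `1` have a large prime factor
-/

set_option autoImplicit false

namespace Pool.Agent.U744.PF

open Finset Filter Topology Pool.Agent.H476R2.Pal

open Classical in
theorem squares (A : ℕ) : ∀ᶠ L : ℕ in atTop,
    (((univ : Finset (Fin L → Fin 10)).filter (fun m => ∃ p : ℕ, p.Coprime 10 ∧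
      (10 : ℝ) ^ ((L : ℝ) / 50) ≤ p ∧ (p : ℝ) ≤ (10 : ℝ) ^ ((3 / 5 : ℝ) * L) ∧ p ^ 2 ∣ pv L m)).card : ℝ)
      ≤ 10 ^ L / (L : ℝ) ^ A :=
  Pool.Agent.H503R2.PalQ7.squares2_of
    (fun L J k K lam h0 h1 hJ hJL α => split L J k K lam h0 h1 hJ hJL α) A

open Classical in
theorem full {ε : ℝ} (hε : 0 < ε) : ∀ᶠ L : ℕ in atTop,
    (7 / 10 - ε) * 10 ^ L ≤ (((univ : Finset (Fin L → Fin 10)).filter (fun m => ∃ p : ℕ, p.Prime ∧
        p ∣ pv L m ∧ (10 : ℝ) ^ ((3 / 5 : ℝ) * L) < p)).card : ℝ) := by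
  have hlb : 1 ≤ Real.log 10 := by
    rw [Real.le_log_iff_exp_le (by norm_num)]
    have := Real.exp_one_lt_d9
    linarith
  obtain ⟨C, hC⟩ : ∃ C : ℝ, C = 6 + 3 / 5 * Real.log 10 := ⟨_, rfl⟩
  have hC0 : 0 < C := by rw [hC]; positivity
  filter_upwards [BV2 2, squares 1, eventually_ge_atTop 1,
    (tendsto_natCast_atTop_atTop (R := ℝ)).eventually_ge_atTop ((C + 2) / ε)] with L h1 h2 hL1 hL2
  have hL : (1 : ℝ) ≤ L := by exact_mod_cast hL1
  have hL0 : (0 : ℝ) < L := by linarith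
  have h1 := h1 (fun _ => 0)
  obtain ⟨X, hX⟩ : ∃ X : ℝ, X = (10 : ℝ) ^ L := ⟨_, rfl⟩
  have hX0 : 0 < X := by rw [hX]; positivity
  obtain ⟨D, hD⟩ : ∃ D : ℝ, D = (10 : ℝ) ^ ((3 / 5 : ℝ) * L) := ⟨_, rfl⟩
  obtain ⟨y, hy⟩ : ∃ y : ℝ, y = (10 : ℝ) ^ ((L : ℝ) / 50) := ⟨_, rfl⟩
  rw [← hX, ← hD] at h1 ⊢
  rw [← hX, ← hD, ← hy] at h2
  have hy1 : 1 < y := by rw [hy]; exact Real.one_lt_rpow (by norm_num) (by positivity)
  have hyD : y ^ 4 ≤ D := by
    rw [hy, hD, ← Real.rpow_natCast, ← Real.rpow_mul (by norm_num)]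
    apply Real.rpow_le_rpow_of_exponent_le (by norm_num)
    push_cast
    linarith
  have hlogD : Real.log D = 3 / 5 * L * Real.log 10 := by rw [hD, Real.log_rpow (by norm_num)]
  obtain ⟨S, hS⟩ : ∃ S, S = (univ : Finset (Fin L → Fin 10)).filter (fun m =>
      (¬ ∃ p : ℕ, p.Prime ∧ p ∣ pv L m ∧ D < p) ∧
      ¬ ∃ p : ℕ, p.Coprime 10 ∧ y ≤ p ∧ (p : ℝ) ≤ D ∧ p ^ 2 ∣ pv L m) := ⟨_, rfl⟩
  have hcheb := cheb (v := pv L) (M := 10) (D := D) (y := y) (X := X) (R := 1 / (L : ℝ) ^ 2)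
    (W := (10 : ℝ) ^ (2 * L)) hy1 hyD hX0.le (one_lt_pow₀ (by norm_num) (by omega))
    (fun m => by
      have := (Pool.Agent.H187R2.PalT10.pv_digits L hL1 m).2.1
      exact_mod_cast this.le)
    (fun m => Pool.Agent.H187R2.PalT10.pv_coprime L hL1 m) (by
      refine le_trans (sum_le_sum ?_) (h1.trans (le_of_eq (by ring)))
      intro q hq
      rw [mem_filter, mem_Icc] at hq
      have h3 : (1 : ℝ) ≤ (q.divisors.card : ℝ) ^ 2 := by
        apply one_le_pow₀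
        have : 0 < q.divisors.card := card_pos.2 ⟨1, Nat.one_mem_divisors.2 (by omega)⟩
        exact_mod_cast this
      have h4 : |(((univ.filter fun i => q ∣ pv L i).card : ℕ) : ℝ) - X / q| =
          |cnt L q 0 - X / q| := by
        unfold cnt
        congr! 5
        exact Nat.modEq_zero_iff_dvd.symm
      rw [h4]
      exact le_mul_of_one_le_left (abs_nonneg _) h3) S
    (by
      intro m hm p hp1 hp2
      rw [hS, mem_filter] at hm
      by_contra h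
      push Not at h
      exact hm.2.1 ⟨p, hp1, hp2, h⟩)
    (by
      intro m hm a ha1 ha2 ha3 ha4
      rw [hS, mem_filter] at hm
      exact hm.2.2 ⟨a, ha1, ha2, ha3, ha4⟩)
  obtain ⟨B, hB⟩ : ∃ B, B = (univ : Finset (Fin L → Fin 10)).filter (fun m => ∃ p : ℕ, p.Prime ∧
      p ∣ pv L m ∧ D < p) := ⟨_, rfl⟩
  obtain ⟨Q, hQ⟩ : ∃ Q, Q = (univ : Finset (Fin L → Fin 10)).filter (fun m =>
      ∃ p : ℕ, p.Coprime 10 ∧ y ≤ p ∧ (p : ℝ) ≤ D ∧ p ^ 2 ∣ pv L m) := ⟨_, rfl⟩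
  rw [← hB]
  have h2' : (Q.card : ℝ) ≤ X / L := by
    rw [hQ]
    rw [pow_one] at h2
    exact h2
  have hcov : X ≤ (B.card : ℝ) + Q.card + S.card := by
    have h3 : (univ : Finset (Fin L → Fin 10)) ⊆ (B ∪ Q) ∪ S := by
      intro m _
      rw [mem_union, mem_union, hB, hQ, hS, mem_filter, mem_filter, mem_filter]
      by_cases h4 : ∃ p : ℕ, p.Prime ∧ p ∣ pv L m ∧ D < p
      · exact Or.inl (Or.inl ⟨mem_univ _, h4⟩)
      · by_cases h5 : ∃ p : ℕ, p.Coprime 10 ∧ y ≤ p ∧ (p : ℝ) ≤ D ∧ p ^ 2 ∣ pv L m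
        · exact Or.inl (Or.inr ⟨mem_univ _, h5⟩)
        · exact Or.inr ⟨mem_univ _, h4, h5⟩
    have h4 := (card_le_card h3).trans ((card_union_le _ _).trans (Nat.add_le_add_right (card_union_le _ _) _))
    rw [card_univ, Fintype.card_fun, Fintype.card_fin, Fintype.card_fin] at h4
    rw [hX]
    exact_mod_cast h4
  -- the size of `S`
  have hSc : (S.card : ℝ) ≤ X * (3 / 10 + ε / 2) := by
    have h3 : Real.log ((10 : ℝ) ^ (2 * L)) = 2 * L * Real.log 10 := by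
      rw [Real.log_pow]; push_cast; ring
    rw [h3, hlogD] at hcheb
    have hC1 : C ≤ ε * L := by
      have := (div_le_iff₀ hε).1 hL2
      linarith
    have h4 : 3 / 5 * (L : ℝ) * Real.log 10 * (1 / (L : ℝ) ^ 2) ≤ 3 / 5 * Real.log 10 := by
      have e : 3 / 5 * (L : ℝ) * Real.log 10 * (1 / (L : ℝ) ^ 2) = 3 / 5 * Real.log 10 * (1 / L) := by
        field_simp
      rw [e]
      have h5 : 1 / (L : ℝ) ≤ 1 := by rwa [div_le_one hL0]
      have h6 : 0 ≤ 3 / 5 * Real.log 10 := by positivity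
      nlinarith
    have h5 : 3 / 5 * L * Real.log 10 + 6 + 3 / 5 * L * Real.log 10 * (1 / (L : ℝ) ^ 2) ≤
        (3 / 10 + ε / 2) * (2 * L * Real.log 10) := by
      have h7 : ε * L ≤ ε * L * Real.log 10 := le_mul_of_one_le_right (by positivity) hlb
      have h8 : (3 / 10 + ε / 2) * (2 * L * Real.log 10) =
            3 / 5 * L * Real.log 10 + ε * L * Real.log 10 := by ring
      linarith
    have h6 : (S.card : ℝ) * (2 * L * Real.log 10) ≤
        (X * (3 / 10 + ε / 2)) * (2 * L * Real.log 10) := by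
      refine hcheb.trans ?_
      rw [mul_assoc X]
      exact mul_le_mul_of_nonneg_left h5 hX0.le
    exact le_of_mul_le_mul_right h6 (by positivity)
  have hXL : X / L ≤ X * (ε / 2) := by
    rw [div_le_iff₀ hL0, mul_assoc]
    apply le_mul_of_one_le_right hX0.le
    have := (div_le_iff₀ hε).1 hL2
    linarith
  calc (7 / 10 - ε) * X = X - X * (3 / 10 + ε / 2) - X * (ε / 2) := by ring
    _ ≤ (B.card : ℝ) := by linarith

open Classical in
/-- at least `70` percent of the palindromes with `2 L + 1` digits and the last digit `1` have a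
prime factor above `10 ^ (3 L / 5)` -/
theorem fullN {ε : ℝ} (hε : 0 < ε) : ∀ᶠ L : ℕ in atTop,
    (7 / 10 - ε) * 10 ^ L ≤ (((range (10 ^ (2 * L + 1))).filter (fun n => 10 ^ (2 * L) ≤ n ∧
      n % 10 = 1 ∧ (Nat.digits 10 n).reverse = Nat.digits 10 n ∧
      ∃ p : ℕ, p.Prime ∧ p ∣ n ∧ (10 : ℝ) ^ ((3 / 5 : ℝ) * L) < p)).card : ℝ) := by
  filter_upwards [full hε, eventually_ge_atTop 1] with L h hL
  refine h.trans ?_
  have h1 : ((univ : Finset (Fin L → Fin 10)).filter (fun m => ∃ p : ℕ, p.Prime ∧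
        p ∣ pv L m ∧ (10 : ℝ) ^ ((3 / 5 : ℝ) * L) < p)).card ≤
      ((range (10 ^ (2 * L + 1))).filter (fun n => 10 ^ (2 * L) ≤ n ∧
      n % 10 = 1 ∧ (Nat.digits 10 n).reverse = Nat.digits 10 n ∧
      ∃ p : ℕ, p.Prime ∧ p ∣ n ∧ (10 : ℝ) ^ ((3 / 5 : ℝ) * L) < p)).card := by
    apply card_le_card_of_injOn (pv L)
    · intro m hm
      rw [mem_coe, mem_filter] at hm
      have h2 := Pool.Agent.H187R2.PalT10.pv_digits L hL m
      have h3 : pv L m % 10 = 1 := by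
        have h4 := Pool.Agent.H329R2.PalT13.pvl_mod 1 L hL m
        rw [Pool.Agent.H329R2.PalT13.pvl_eq 1 L le_rfl m] at h4
        simpa using h4
      rw [mem_coe, mem_filter, mem_range]
      exact ⟨h2.2.2, h2.2.1.le, h3, h2.1, hm.2⟩
    · intro m _ m' _ h2
      exact Pool.Agent.H187R2.PalT10.pv_inj L hL h2
  exact_mod_cast h1

end Pool.Agent.U744.PF
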