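import Mathlib
import Pool.Agent.U744.PF.Cheb
import Pool.Agent.W89.PW.Count
import Pool.Agent.W22.PW_M4

/-!
# Palindromes with a large prime factor
-/

set_option autoImplicit false

namespace Pool.Agent.U744.PF

open Finset Filter Topology Pool.Agent.W89.PW

open Classical in
/-- at most a proportion `κ / 2 + ε` of the digit vectors gives palindromes without a prime factor
above `b ^ (κ L)` -/
theorem large {b s t : ℕ} (hb : 3 ≤ b) (hs : 2 ≤ s) (hst : s ≤ t) (hbst : s + t = b + 1) {κ : ℝ}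
    (hκ0 : 0 < κ) (hκ : (b : ℝ) ^ κ * HH s t < 1) (hm4 : (b : ℝ) * m4 s t < 1) {ε : ℝ} (hε : 0 < ε) :
    ∀ᶠ L : ℕ in atTop, (1 - κ / 2 - ε) * ((s : ℝ) * t) ^ L ≤
      (((univ : Finset (Fin L → Fin s × Fin t)).filter (fun m => ∃ p : ℕ, p.Prime ∧
        p ∣ pv b s t L m ∧ (b : ℝ) ^ (κ * L) < p)).card : ℝ) := by
  have hκ1 : κ < 1 := kappa_lt_one hb (by omega) (by omega) hbst hκ
  have hBig : BigW b s t κ := Pool.Agent.W822.PWBig.main Pool.Agent.W880.PW.mainG Pool.Agent.W342.PW2.mainLS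
    b s t hb (by omega) (by omega) hbst hm4 κ hκ0 hκ
  have hPt : PtW b s t := Pool.Agent.W571.PW.Pt.main b s t (by omega) hs (by omega) hbst
  have hBV : BVW b s t κ := Pool.Agent.W261.PWBV.main b s t hb (by omega) (by omega) hbst hPt κ hκ0 hκ1 hBig
  have hSq : SqW b s t κ := Pool.Agent.W809.PWSqr.main Pool.Agent.W880.PW.mainGsq
    Pool.Agent.W342.PW2.mainSq4 b s t hb (by omega) (by omega) hbst hm4 κ hκ0 hκ
  have hDig := fun L => Pool.Agent.W571.PW.Dig.main b s t L hb (by omega) hst hbst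
  have hbR : (3 : ℝ) ≤ b := by exact_mod_cast hb
  have hb1 : (1 : ℝ) < b := by linarith
  have hlb : 1 ≤ Real.log b := by
    rw [Real.le_log_iff_exp_le (by linarith)]
    have := Real.exp_one_lt_d9
    linarith
  obtain ⟨C, hC⟩ : ∃ C : ℝ, C = 6 + κ * Real.log b := ⟨_, rfl⟩
  have hC0 : 0 < C := by rw [hC]; positivity
  filter_upwards [hBV 2, hSq (κ / 8) (by positivity) 1, eventually_ge_atTop 1,
    (tendsto_natCast_atTop_atTop (R := ℝ)).eventually_ge_atTop ((C + 2) / ε)] with L h1 h2 hL1 hL2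
  have hL : (1 : ℝ) ≤ L := by exact_mod_cast hL1
  have hL0 : (0 : ℝ) < L := by linarith
  have hs0 : (0 : ℝ) < s := by exact_mod_cast (by omega : 0 < s)
  have ht0 : (0 : ℝ) < t := by exact_mod_cast (by omega : 0 < t)
  obtain ⟨X, hX⟩ : ∃ X : ℝ, X = ((s : ℝ) * t) ^ L := ⟨_, rfl⟩
  have hX0 : 0 < X := by rw [hX]; positivity
  obtain ⟨D, hD⟩ : ∃ D : ℝ, D = (b : ℝ) ^ (κ * L) := ⟨_, rfl⟩
  obtain ⟨y, hy⟩ : ∃ y : ℝ, y = (b : ℝ) ^ (κ / 8 * L) := ⟨_, rfl⟩
  rw [← hX, ← hD] at h1 ⊢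
  rw [← hX, ← hD, ← hy] at h2
  have hy1 : 1 < y := by rw [hy]; exact Real.one_lt_rpow hb1 (by positivity)
  have hyD : y ^ 4 ≤ D := by
    rw [hy, hD, ← Real.rpow_natCast, ← Real.rpow_mul (by linarith)]
    apply Real.rpow_le_rpow_of_exponent_le hb1.le
    push_cast
    have : 0 < κ * L := by positivity
    linarith
  have hlogD : Real.log D = κ * L * Real.log b := by rw [hD, Real.log_rpow (by linarith)]
  obtain ⟨S, hS⟩ : ∃ S, S = (univ : Finset (Fin L → Fin s × Fin t)).filter (fun m =>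
      (¬ ∃ p : ℕ, p.Prime ∧ p ∣ pv b s t L m ∧ D < p) ∧
      ¬ ∃ p : ℕ, p.Coprime (2 * b) ∧ y ≤ p ∧ (p : ℝ) ≤ D ∧ p ^ 2 ∣ pv b s t L m) := ⟨_, rfl⟩
  have hcheb := cheb (v := pv b s t L) (M := 2 * b) (D := D) (y := y) (X := X) (R := 1 / (L : ℝ) ^ 2)
    (W := (b : ℝ) ^ (2 * L + 2)) hy1 hyD hX0.le (one_lt_pow₀ hb1 (by omega))
    (fun m => by
      have := ((hDig L).1 m).1
      exact_mod_cast this.le)
    (fun m => ((hDig L).1 m).2.2.2) (by
      refine le_trans (sum_le_sum ?_) (h1.trans (le_of_eq (by ring)))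
      intro q hq
      rw [mem_filter, mem_Icc] at hq
      have h3 : (1 : ℝ) ≤ (q.divisors.card : ℝ) ^ 2 := by
        apply one_le_pow₀
        have : 0 < q.divisors.card := card_pos.2 ⟨1, Nat.one_mem_divisors.2 (by omega)⟩
        exact_mod_cast this
      have h4 : |(((univ.filter fun i => q ∣ pv b s t L i).card : ℕ) : ℝ) - X / q| =
          |cnt b s t L q - X / q| := by
        unfold cnt
        congr! 4
      rw [h4]
      exact le_mul_of_one_le_left (abs_nonneg _) h3) S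
    (by
      intro m hm p hp1 hp2
      rw [hS, mem_filter] at hm
      by_contra h
      push Not at h
      exact hm.2.1 ⟨p, hp1, hp2, h⟩)
    (by
      intro m hm a ha1 ha2 ha3 ha4
      rw [hS, mem_filter] at hm
      exact hm.2.2 ⟨a, ha1, ha2, ha3, ha4⟩)
  obtain ⟨B, hB⟩ : ∃ B, B = (univ : Finset (Fin L → Fin s × Fin t)).filter (fun m => ∃ p : ℕ, p.Prime ∧
      p ∣ pv b s t L m ∧ D < p) := ⟨_, rfl⟩
  obtain ⟨Q, hQ⟩ : ∃ Q, Q = (univ : Finset (Fin L → Fin s × Fin t)).filter (fun m =>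
      ∃ p : ℕ, p.Coprime (2 * b) ∧ y ≤ p ∧ (p : ℝ) ≤ D ∧ p ^ 2 ∣ pv b s t L m) := ⟨_, rfl⟩
  rw [← hB]
  have h2' : (Q.card : ℝ) ≤ X / L := by
    rw [hQ]
    rw [pow_one] at h2
    exact h2
  have hcov : X ≤ (B.card : ℝ) + Q.card + S.card := by
    have h3 : (univ : Finset (Fin L → Fin s × Fin t)) ⊆ (B ∪ Q) ∪ S := by
      intro m _
      rw [mem_union, mem_union, hB, hQ, hS, mem_filter, mem_filter, mem_filter]
      by_cases h4 : ∃ p : ℕ, p.Prime ∧ p ∣ pv b s t L m ∧ D < p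
      · exact Or.inl (Or.inl ⟨mem_univ _, h4⟩)
      · by_cases h5 : ∃ p : ℕ, p.Coprime (2 * b) ∧ y ≤ p ∧ (p : ℝ) ≤ D ∧ p ^ 2 ∣ pv b s t L m
        · exact Or.inl (Or.inr ⟨mem_univ _, h5⟩)
        · exact Or.inr ⟨mem_univ _, h4, h5⟩
    have h4 := (card_le_card h3).trans ((card_union_le _ _).trans (Nat.add_le_add_right (card_union_le _ _) _))
    rw [card_univ, Fintype.card_fun, Fintype.card_prod, Fintype.card_fin, Fintype.card_fin,
      Fintype.card_fin] at h4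
    rw [hX]
    exact_mod_cast h4
  -- the size of `S`
  have hSc : (S.card : ℝ) ≤ X * (κ / 2 + ε / 2) := by
    have h3 : Real.log ((b : ℝ) ^ (2 * L + 2)) = (2 * L + 2) * Real.log b := by
      rw [Real.log_pow]; push_cast; ring
    rw [h3, hlogD] at hcheb
    have hC1 : C ≤ ε * L := by
      have := (div_le_iff₀ hε).1 hL2
      linarith
    have h4 : κ * L * Real.log b * (1 / (L : ℝ) ^ 2) ≤ κ * Real.log b := by
      have e : κ * L * Real.log b * (1 / (L : ℝ) ^ 2) = κ * Real.log b * (1 / L) := by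
        field_simp
      rw [e]
      have h5 : 1 / (L : ℝ) ≤ 1 := by rwa [div_le_one hL0]
      have h6 : 0 ≤ κ * Real.log b := by positivity
      nlinarith
    have h5 : κ * L * Real.log b + 6 + κ * L * Real.log b * (1 / (L : ℝ) ^ 2) ≤
        (κ / 2 + ε / 2) * ((2 * L + 2) * Real.log b) := by
      have h6 : κ * L * Real.log b + C ≤ (κ / 2 + ε / 2) * ((2 * L + 2) * Real.log b) := by
        have h7 : ε * L ≤ ε * L * Real.log b := le_mul_of_one_le_right (by positivity) hlb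
        have h8 : (κ / 2 + ε / 2) * ((2 * L + 2) * Real.log b) =
            κ * L * Real.log b + ε * L * Real.log b + (κ + ε) * Real.log b := by ring
        have h9 : 0 ≤ (κ + ε) * Real.log b := by positivity
        linarith
      linarith
    have h6 : (S.card : ℝ) * ((2 * L + 2) * Real.log b) ≤
        (X * (κ / 2 + ε / 2)) * ((2 * L + 2) * Real.log b) := by
      refine hcheb.trans ?_
      rw [mul_assoc X]
      exact mul_le_mul_of_nonneg_left h5 hX0.le
    exact le_of_mul_le_mul_right h6 (by positivity)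
  have hXL : X / L ≤ X * (ε / 2) := by
    rw [div_le_iff₀ hL0, mul_assoc]
    apply le_mul_of_one_le_right hX0.le
    have := (div_le_iff₀ hε).1 hL2
    linarith
  calc (1 - κ / 2 - ε) * X = X - X * (κ / 2 + ε / 2) - X * (ε / 2) := by ring
    _ ≤ (B.card : ℝ) := by linarith

/-- the number of quadruples -/
lemma Eset_le (s t : ℕ) : (Eset s t).card ≤ (s * t) * s := by
  have h1 : (Eset s t).card ≤ ((univ : Finset ((Fin s × Fin t) × Fin s))).card := by
    apply card_le_card_of_injOn (fun p => (p.1, p.2.1)) (fun _ _ => mem_coe.2 (mem_univ _))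
    intro p hp q hq h
    rw [mem_coe] at hp hq
    unfold Eset at hp hq
    rw [mem_filter] at hp hq
    simp only [Prod.mk.injEq] at h
    obtain ⟨h2, h3⟩ := h
    have h4 := hp.2
    rw [h2, h3, hq.2] at h4
    have h5 : p.2.2 = q.2.2 := by
      apply Fin.ext
      omega
    exact Prod.ext h2 (Prod.ext h3 h5)
  rwa [card_univ, Fintype.card_prod, Fintype.card_prod, Fintype.card_fin, Fintype.card_fin] at h1

lemma Eset_pos {s t : ℕ} (hs : 1 ≤ s) (ht : 1 ≤ t) : 0 < (Eset s t).card := by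
  apply card_pos.2
  refine ⟨((⟨0, by omega⟩, ⟨0, by omega⟩), (⟨0, by omega⟩, ⟨0, by omega⟩)), ?_⟩
  unfold Eset
  simp

open Classical in
/-- many palindromes have a large prime factor -/
theorem manyN {b s t : ℕ} (hb : 3 ≤ b) (hs : 2 ≤ s) (hst : s ≤ t) (hbst : s + t = b + 1) {κ θ B : ℝ}
    (hκ0 : 0 < κ) (hκ : (b : ℝ) ^ κ * HH s t < 1) (hm4 : (b : ℝ) * m4 s t < 1) (hθ0 : 0 ≤ θ)
    (hθ : 2 * θ < κ) (hB : 1 ≤ B) (hBE : B < ((s : ℝ) * t) ^ 2 / (Eset s t).card) :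
    ∀ᶠ N : ℕ in atTop, B ^ N ≤ (((range (b ^ (2 * N + 1))).filter (fun n => b ^ (2 * N) ≤ n ∧
      (Nat.digits b n).reverse = Nat.digits b n ∧
      ∃ p : ℕ, p.Prime ∧ p ∣ n ∧ (n : ℝ) ^ θ < p)).card : ℝ) := by
  have hκ1 : κ < 1 := kappa_lt_one hb (by omega) (by omega) hbst hκ
  have hbR : (3 : ℝ) ≤ b := by exact_mod_cast hb
  have hs0 : (0 : ℝ) < s := by exact_mod_cast (by omega : 0 < s)
  have ht0 : (0 : ℝ) < t := by exact_mod_cast (by omega : 0 < t)
  obtain ⟨A, hA⟩ : ∃ A : ℝ, A = ((s : ℝ) * t) ^ 2 / (Eset s t).card := ⟨_, rfl⟩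
  rw [← hA] at hBE
  have hE : (0 : ℝ) < (Eset s t).card := by exact_mod_cast Eset_pos (by omega) (by omega)
  have hA0 : 0 < A := by linarith
  have hB0 : 0 < B := by linarith
  have h1 : ∀ᶠ L : ℕ in atTop, 16 * B ≤ (A / B) ^ L :=
    (tendsto_pow_atTop_atTop_of_one_lt (by rwa [one_lt_div hB0])).eventually_ge_atTop _
  have h2 : ∀ᶠ L : ℕ in atTop, 3 * θ ≤ (κ - 2 * θ) * (L : ℝ) :=
    ((tendsto_natCast_atTop_atTop (R := ℝ)).const_mul_atTop (by linarith)).eventually_ge_atTop _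
  have h3 := large hb hs hst hbst hκ0 hκ hm4 (ε := 1 / 4) (by norm_num)
  have key : ∀ᶠ L : ℕ in atTop, B ^ (L + 1) ≤ (((range (b ^ (2 * (L + 1) + 1))).filter (fun n =>
      b ^ (2 * (L + 1)) ≤ n ∧ (Nat.digits b n).reverse = Nat.digits b n ∧
      ∃ p : ℕ, p.Prime ∧ p ∣ n ∧ (n : ℝ) ^ θ < p)).card : ℝ) := by
    filter_upwards [h1, h2, h3] with L h1 h2 h3
    obtain ⟨G, hG⟩ : ∃ G, G = (univ : Finset (Fin L → Fin s × Fin t)).filter (fun m => ∃ p : ℕ, p.Prime ∧
      p ∣ pv b s t L m ∧ (b : ℝ) ^ (κ * L) < p) := ⟨_, rfl⟩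
    rw [← hG] at h3
    have h4 : 1 / 4 * ((s : ℝ) * t) ^ L ≤ G.card := by
      refine le_trans ?_ h3
      apply mul_le_mul_of_nonneg_right (by linarith) (by positivity)
    have h5 : ((G.card : ℕ) : ℝ) ^ 2 ≤ ((G.image (pv b s t L)).card : ℝ) * ((Eset s t).card : ℝ) ^ L := by
      exact_mod_cast card_sq_le hb hbst G
    have h6 : (1 / 4 * ((s : ℝ) * t) ^ L) ^ 2 ≤ (G.card : ℝ) ^ 2 :=
      pow_le_pow_left₀ (by positivity) h4 2
    have h7 : 1 / 16 * A ^ L ≤ ((G.image (pv b s t L)).card : ℝ) := by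
      have h8 := h6.trans h5
      rw [← div_le_iff₀ (by positivity)] at h8
      refine le_trans (le_of_eq ?_) h8
      have h9 : (((s : ℝ) * t) ^ 2) ^ L = (((s : ℝ) * t) ^ L) ^ 2 := by
        rw [← pow_mul, ← pow_mul, mul_comm 2 L]
      rw [hA, div_pow, h9]
      ring
    have h8 : B ^ (L + 1) ≤ 1 / 16 * A ^ L := by
      rw [div_pow, le_div_iff₀ (by positivity)] at h1
      rw [pow_succ]
      linarith
    refine h8.trans (h7.trans ?_)
    have h9 : G.image (pv b s t L) ⊆ (range (b ^ (2 * (L + 1) + 1))).filter (fun n =>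
      b ^ (2 * (L + 1)) ≤ n ∧ (Nat.digits b n).reverse = Nat.digits b n ∧
      ∃ p : ℕ, p.Prime ∧ p ∣ n ∧ (n : ℝ) ^ θ < p) := by
      intro n hn
      rw [mem_image] at hn
      obtain ⟨m, hm, rfl⟩ := hn
      rw [hG, mem_filter] at hm
      obtain ⟨-, p, hp1, hp2, hp3⟩ := hm
      obtain ⟨hd1, hd2, hd3, hd4⟩ := (Pool.Agent.W571.PW.Dig.main b s t L hb (by omega) hst hbst).1 m
      rw [mem_filter, mem_range]
      refine ⟨by rw [show 2 * (L + 1) + 1 = 2 * L + 3 by ring]; exact hd2,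
        by rw [show 2 * (L + 1) = 2 * L + 2 by ring]; exact hd1.le, hd3, p, hp1, hp2, ?_⟩
      refine lt_of_le_of_lt ?_ hp3
      have h10 : ((pv b s t L m : ℕ) : ℝ) ≤ (b : ℝ) ^ (2 * L + 3) := by exact_mod_cast hd2.le
      calc ((pv b s t L m : ℕ) : ℝ) ^ θ ≤ ((b : ℝ) ^ (2 * L + 3)) ^ θ :=
            Real.rpow_le_rpow (by positivity) h10 hθ0
        _ = (b : ℝ) ^ (((2 * L + 3 : ℕ) : ℝ) * θ) := by
            rw [← Real.rpow_natCast, ← Real.rpow_mul (by linarith)]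
        _ ≤ (b : ℝ) ^ (κ * L) := by
            apply Real.rpow_le_rpow_of_exponent_le (by linarith)
            push_cast
            linarith
    exact_mod_cast card_le_card h9
  obtain ⟨L₀, hL₀⟩ := eventually_atTop.1 key
  filter_upwards [eventually_ge_atTop (L₀ + 1)] with N hN
  obtain ⟨L, rfl⟩ : ∃ L, N = L + 1 := ⟨N - 1, by omega⟩
  exact hL₀ L (by omega)

end Pool.Agent.U744.PF
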