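import Mathlib
import Pool.Agent.U744.PF.Large
import Pool.Agent.U744.PF.Full

/-!
# Palindromes with a large prime factor: the numerical facts
-/

set_option autoImplicit false

namespace Pool.Agent.U744.PF

open Finset Filter Topology Pool.Agent.W89.PW

open Classical in
/-- base `10`, the exponent `0.368` -/
theorem decimal : ∀ᶠ N : ℕ in atTop, (8 : ℝ) ^ N ≤ (((range (10 ^ (2 * N + 1))).filter (fun n =>
      10 ^ (2 * N) ≤ n ∧ (Nat.digits 10 n).reverse = Nat.digits 10 n ∧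
      ∃ p : ℕ, p.Prime ∧ p ∣ n ∧ (n : ℝ) ^ (0.368 : ℝ) < p)).card : ℝ) := by
  have hm4 : ((10 : ℕ) : ℝ) * m4 5 6 < 1 := by
    have h := Pool.Agent.W22.PWM4.main 10 (by norm_num)
    norm_num at h
    push_cast
    linarith
  have hκ : (((10 : ℕ) : ℝ)) ^ (277 / 376 : ℝ) * HH 5 6 < 1 := by
    have h1 : (10 : ℝ) ^ (277 / 376 : ℝ) < 60 / 11 := by
      have h2 : ((10 : ℝ) ^ (277 / 376 : ℝ)) ^ 376 < (60 / 11) ^ 376 := by
        rw [← Real.rpow_natCast, ← Real.rpow_mul (by norm_num)]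
        have e : (277 / 376 : ℝ) * ((376 : ℕ) : ℝ) = ((277 : ℕ) : ℝ) := by norm_num
        have e1 : (60 / 11 : ℝ) ^ 376 = (60 / 11) ^ 188 * (60 / 11) ^ 188 := by rw [← pow_add]
        have e2 : (10 : ℝ) ^ 277 = 10 ^ 138 * 10 ^ 139 := by rw [← pow_add]
        rw [e, Real.rpow_natCast, e1, e2]
        norm_num
      exact lt_of_pow_lt_pow_left₀ 376 (by norm_num) h2
    unfold HH
    push_cast
    nlinarith
  have hE : (Eset 5 6).card = 110 := by decide +kernel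
  exact manyN (b := 10) (s := 5) (t := 6) (κ := 277 / 376) (θ := 0.368) (B := 8) (by norm_num)
    (by norm_num) (by norm_num) (by norm_num) (by norm_num) hκ hm4 (by norm_num) (by norm_num)
    (by norm_num) (by rw [hE]; norm_num)

/-- the mean `HH` for the digits `i + j`, `i < (b + 1) / 2` -/
lemma HH_le {b : ℕ} (hb : 3 ≤ b) :
    HH ((b + 1) / 2) (b + 1 - (b + 1) / 2) ≤ 2 * (b + 1) / (b * (b + 2)) := by
  obtain ⟨s, hs⟩ : ∃ s, s = (b + 1) / 2 := ⟨_, rfl⟩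
  obtain ⟨t, ht⟩ : ∃ t, t = b + 1 - s := ⟨_, rfl⟩
  rw [← hs, ← ht]
  have hs1 : 1 ≤ s := by omega
  have ht1 : 1 ≤ t := by omega
  have hst : (s : ℝ) + t = b + 1 := by
    have : s + t = b + 1 := by omega
    exact_mod_cast this
  have hs0 : (0 : ℝ) < s := by exact_mod_cast hs1
  have ht0 : (0 : ℝ) < t := by exact_mod_cast ht1
  have hb0 : (3 : ℝ) ≤ b := by exact_mod_cast hb
  have h1 : (b : ℝ) * (b + 2) ≤ 4 * (s * t) := by
    have h2 : t = s ∨ t = s + 1 := by omega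
    have h3 : (b : ℝ) = s + t - 1 := by linarith
    rw [h3]
    rcases h2 with h2 | h2
    · have : (t : ℝ) = s := by exact_mod_cast h2
      rw [this]; nlinarith
    · have : (t : ℝ) = s + 1 := by exact_mod_cast h2
      rw [this]; nlinarith
  have h2 : HH s t = (b + 1) / (2 * (s * t)) := by
    unfold HH
    rw [← hst]
    field_simp
    ring
  rw [h2, div_le_div_iff₀ (by positivity) (by positivity)]
  have h3 : 0 ≤ (b : ℝ) + 1 := by linarith
  calc ((b : ℝ) + 1) * (b * (b + 2)) ≤ (b + 1) * (4 * (s * t)) := mul_le_mul_of_nonneg_left h1 h3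
    _ = _ := by ring

open Classical in
/-- all bases -/
theorem base {b : ℕ} (hb : 3 ≤ b) {θ : ℝ} (hθ0 : 0 ≤ θ)
    (hθ : (b : ℝ) ^ (2 * θ) * (2 * (b + 1)) < b * (b + 2)) :
    ∀ᶠ N : ℕ in atTop, ((b : ℝ) / 2) ^ N ≤ (((range (b ^ (2 * N + 1))).filter (fun n =>
      b ^ (2 * N) ≤ n ∧ (Nat.digits b n).reverse = Nat.digits b n ∧
      ∃ p : ℕ, p.Prime ∧ p ∣ n ∧ (n : ℝ) ^ θ < p)).card : ℝ) := by
  have hb0 : (3 : ℝ) ≤ b := by exact_mod_cast hb
  have hbp : (0 : ℝ) < b := by linarith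
  have hHH := HH_le hb
  have hm4 := Pool.Agent.W22.PWM4.main b hb
  obtain ⟨s, hs⟩ : ∃ s, s = (b + 1) / 2 := ⟨_, rfl⟩
  obtain ⟨t, ht⟩ : ∃ t, t = b + 1 - s := ⟨_, rfl⟩
  rw [← hs, ← ht] at hHH hm4
  have hs0 : (0 : ℝ) < s := by exact_mod_cast (by omega : 0 < s)
  have ht0 : (0 : ℝ) < t := by exact_mod_cast (by omega : 0 < t)
  have h1 : (b : ℝ) ^ (2 * θ) * HH s t < 1 := by
    have h2 : (0 : ℝ) < (b : ℝ) ^ (2 * θ) := Real.rpow_pos_of_pos hbp _
    refine lt_of_le_of_lt (mul_le_mul_of_nonneg_left hHH h2.le) ?_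
    rw [mul_div_assoc', div_lt_one (by positivity)]
    exact hθ
  have h2 : ContinuousAt (fun κ : ℝ => (b : ℝ) ^ κ * HH s t) (2 * θ) :=
    (Real.continuousAt_const_rpow hbp.ne').mul continuousAt_const
  have h3 : ∀ᶠ κ in 𝓝[>] (2 * θ), (b : ℝ) ^ κ * HH s t < 1 :=
    (h2.eventually (gt_mem_nhds h1)).filter_mono nhdsWithin_le_nhds
  obtain ⟨κ, hκ1, hκ2⟩ := (h3.and self_mem_nhdsWithin).exists
  have hκ2' : 2 * θ < κ := hκ2
  have hB : (b : ℝ) / 2 < ((s : ℝ) * t) ^ 2 / (Eset s t).card := by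
    have h4 : (b : ℝ) / 2 < t := by
      have h5 : b + 1 ≤ 2 * t := by omega
      have h6 : (b : ℝ) + 1 ≤ 2 * t := by exact_mod_cast h5
      linarith
    have h5 : ((Eset s t).card : ℝ) ≤ (s * t) * s := by exact_mod_cast Eset_le s t
    have h6 : (0 : ℝ) < (Eset s t).card := by exact_mod_cast Eset_pos (by omega) (by omega)
    refine lt_of_lt_of_le h4 ?_
    rw [le_div_iff₀ h6]
    calc (t : ℝ) * (Eset s t).card ≤ t * ((s * t) * s) := mul_le_mul_of_nonneg_left h5 ht0.le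
      _ = _ := by ring
  exact manyN hb (by omega) (by omega) (by omega) (by linarith) hκ1 (by linarith) hθ0 hκ2'
    (by linarith) hB

/-- the condition of `base` holds for large bases -/
theorem large_base {θ : ℝ} (hθ : θ < 1 / 2) :
    ∀ᶠ b : ℕ in atTop, (b : ℝ) ^ (2 * θ) * (2 * (b + 1)) < b * (b + 2) := by
  have h1 : Tendsto (fun b : ℕ => (b : ℝ) ^ (1 - 2 * θ)) atTop atTop :=
    (tendsto_rpow_atTop (by linarith)).comp (tendsto_natCast_atTop_atTop (R := ℝ))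
  filter_upwards [h1.eventually_gt_atTop 2, eventually_ge_atTop 1] with b h2 hb
  have hb0 : (0 : ℝ) < b := by exact_mod_cast hb
  have h3 : (0 : ℝ) < (b : ℝ) ^ (2 * θ) := Real.rpow_pos_of_pos hb0 _
  have h4 : (b : ℝ) ^ (2 * θ) * (b : ℝ) ^ (1 - 2 * θ) = b := by
    rw [← Real.rpow_add hb0]
    rw [show 2 * θ + (1 - 2 * θ) = 1 by ring, Real.rpow_one]
  have h5 : (b : ℝ) ^ (2 * θ) * 2 < b := by
    calc (b : ℝ) ^ (2 * θ) * 2 < (b : ℝ) ^ (2 * θ) * (b : ℝ) ^ (1 - 2 * θ) :=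
          mul_lt_mul_of_pos_left h2 h3
      _ = b := h4
  calc (b : ℝ) ^ (2 * θ) * (2 * (b + 1)) = ((b : ℝ) ^ (2 * θ) * 2) * (b + 1) := by ring
    _ < b * (b + 1) := mul_lt_mul_of_pos_right h5 (by linarith)
    _ ≤ b * (b + 2) := mul_le_mul_of_nonneg_left (by linarith) hb0.le

end Pool.Agent.U744.PF
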