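import Mathlib
import Pool.Agent.U744.PF.Cheb
import Pool.Agent.W139.PX.F4

/-!
# A positive proportion of the palindromes have a large prime factor, in every base
-/

set_option autoImplicit false

namespace Pool.Agent.U744.PF

open Finset Filter Topology Pool.Agent.W89.PW Pool.Agent.W139.PX

open Classical in
/-- at most a proportion `κ / 2 + ε` of the digit vectors gives palindromes without a prime factor
above `b ^ (κ L)` -/
theorem largeG {b s t : ℕ} (hb : 2 ≤ b) (hs : 1 ≤ s) (ht : 1 ≤ t) (hbst : s + t = b + 1) {κ : ℝ}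
    (hκ0 : 0 < κ) (hBV : BVW b s t κ) (hSq : SqW b s t κ) {ε : ℝ} (hε : 0 < ε) :
    ∀ᶠ L : ℕ in atTop, (1 - κ / 2 - ε) * ((s : ℝ) * t) ^ L ≤
      (((univ : Finset (Fin L → Fin s × Fin t)).filter (fun m => ∃ p : ℕ, p.Prime ∧
        p ∣ pv b s t L m ∧ (b : ℝ) ^ (κ * L) < p)).card : ℝ) := by
  have hDig := fun L => dig2 (s := s) (t := t) L hb hbst
  have hbR : (2 : ℝ) ≤ b := by exact_mod_cast hb
  have hb1 : (1 : ℝ) < b := by linarith
  have hlb : 0 < Real.log b := Real.log_pos hb1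
  obtain ⟨C, hC⟩ : ∃ C : ℝ, C = 6 + κ * Real.log b := ⟨_, rfl⟩
  have hC0 : 0 < C := by rw [hC]; positivity
  filter_upwards [hBV 2, hSq (κ / 8) (by positivity) 1, eventually_ge_atTop 1,
    (tendsto_natCast_atTop_atTop (R := ℝ)).eventually_ge_atTop ((C / Real.log b + 2) / ε)]
    with L h1 h2 hL1 hL2
  have hL : (1 : ℝ) ≤ L := by exact_mod_cast hL1
  have hL0 : (0 : ℝ) < L := by linarith
  have hs0 : (0 : ℝ) < s := by exact_mod_cast (by omega : 0 < s)
  have ht0 : (0 : ℝ) < t := by exact_mod_cast (by omega : 0 < t)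
  have hεL : C / Real.log b + 2 ≤ ε * L := by
    have := (div_le_iff₀ hε).1 hL2
    linarith
  have hCl : 0 < C / Real.log b := by positivity
  obtain ⟨X, hX⟩ : ∃ X : ℝ, X = ((s : ℝ) * t) ^ L := ⟨_, rfl⟩
  have hX0 : 0 < X := by rw [hX]; positivity
  obtain ⟨D, hD⟩ : ∃ D : ℝ, D = (b : ℝ) ^ (κ * L) := ⟨_, rfl⟩
  obtain ⟨y, hy⟩ : ∃ y : ℝ, y = (b : ℝ) ^ (κ / 8 * L) := ⟨_, rfl⟩
  rw [← hX, ← hD] at h1 ⊢
  rw [← hX, ← hD, ← hy] at h2
  have hy1 : 1 < y := by rw [hy]; exact Real.one_lt_rpow hb1 (by positivity)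
  have hyD : y ^ 4 ≤ D := by
    rw [hy, hD, ← Real.rpow_natCast, ← Real.rpow_mul (by linarith)]
    apply Real.rpow_le_rpow_of_exponent_le hb1.le
    push_cast
    have : 0 < κ * L := by positivity
    linarith
  have hlogD : Real.log D = κ * L * Real.log b := by rw [hD, Real.log_rpow (by linarith)]
  obtain ⟨S, hS⟩ : ∃ S, S = (univ : Finset (Fin L → Fin s × Fin t)).filter (fun m =>
      (¬ ∃ p : ℕ, p.Prime ∧ p ∣ pv b s t L m ∧ D < p) ∧
      ¬ ∃ p : ℕ, p.Coprime (2 * b) ∧ y ≤ p ∧ (p : ℝ) ≤ D ∧ p ^ 2 ∣ pv b s t L m) := ⟨_, rfl⟩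
  have hcheb := cheb (v := pv b s t L) (M := 2 * b) (D := D) (y := y) (X := X) (R := 1 / (L : ℝ) ^ 2)
    (W := (b : ℝ) ^ (2 * L + 2)) hy1 hyD hX0.le (one_lt_pow₀ hb1 (by omega))
    (fun m => by
      have := ((hDig L).1 m).1
      exact_mod_cast this.le)
    (fun m => ((hDig L).1 m).2.2.2) (by
      refine le_trans (sum_le_sum ?_) (h1.trans (le_of_eq (by ring)))
      intro q hq
      rw [mem_filter, mem_Icc] at hq
      have h3 : (1 : ℝ) ≤ (q.divisors.card : ℝ) ^ 2 := by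
        apply one_le_pow₀
        have : 0 < q.divisors.card := card_pos.2 ⟨1, Nat.one_mem_divisors.2 (by omega)⟩
        exact_mod_cast this
      have h4 : |(((univ.filter fun i => q ∣ pv b s t L i).card : ℕ) : ℝ) - X / q| =
          |cnt b s t L q - X / q| := by
        unfold cnt
        congr! 4
      rw [h4]
      exact le_mul_of_one_le_left (abs_nonneg _) h3) S
    (by
      intro m hm p hp1 hp2
      rw [hS, mem_filter] at hm
      by_contra h
      push Not at h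
      exact hm.2.1 ⟨p, hp1, hp2, h⟩)
    (by
      intro m hm a ha1 ha2 ha3 ha4
      rw [hS, mem_filter] at hm
      exact hm.2.2 ⟨a, ha1, ha2, ha3, ha4⟩)
  obtain ⟨B, hB⟩ : ∃ B, B = (univ : Finset (Fin L → Fin s × Fin t)).filter (fun m => ∃ p : ℕ, p.Prime ∧
      p ∣ pv b s t L m ∧ D < p) := ⟨_, rfl⟩
  obtain ⟨Q, hQ⟩ : ∃ Q, Q = (univ : Finset (Fin L → Fin s × Fin t)).filter (fun m =>
      ∃ p : ℕ, p.Coprime (2 * b) ∧ y ≤ p ∧ (p : ℝ) ≤ D ∧ p ^ 2 ∣ pv b s t L m) := ⟨_, rfl⟩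
  rw [← hB]
  have h2' : (Q.card : ℝ) ≤ X / L := by
    rw [hQ]
    rw [pow_one] at h2
    exact h2
  have hcov : X ≤ (B.card : ℝ) + Q.card + S.card := by
    have h3 : (univ : Finset (Fin L → Fin s × Fin t)) ⊆ (B ∪ Q) ∪ S := by
      intro m _
      rw [mem_union, mem_union, hB, hQ, hS, mem_filter, mem_filter, mem_filter]
      by_cases h4 : ∃ p : ℕ, p.Prime ∧ p ∣ pv b s t L m ∧ D < p
      · exact Or.inl (Or.inl ⟨mem_univ _, h4⟩)
      · by_cases h5 : ∃ p : ℕ, p.Coprime (2 * b) ∧ y ≤ p ∧ (p : ℝ) ≤ D ∧ p ^ 2 ∣ pv b s t L m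
        · exact Or.inl (Or.inr ⟨mem_univ _, h5⟩)
        · exact Or.inr ⟨mem_univ _, h4, h5⟩
    have h4 := (card_le_card h3).trans ((card_union_le _ _).trans (Nat.add_le_add_right (card_union_le _ _) _))
    rw [card_univ, Fintype.card_fun, Fintype.card_prod, Fintype.card_fin, Fintype.card_fin,
      Fintype.card_fin] at h4
    rw [hX]
    exact_mod_cast h4
  -- the size of `S`
  have hSc : (S.card : ℝ) ≤ X * (κ / 2 + ε / 2) := by
    have h3 : Real.log ((b : ℝ) ^ (2 * L + 2)) = (2 * L + 2) * Real.log b := by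
      rw [Real.log_pow]; push_cast; ring
    rw [h3, hlogD] at hcheb
    have hC1 : C ≤ ε * L * Real.log b := by
      have h4 : C / Real.log b ≤ ε * L := by linarith
      rwa [div_le_iff₀ hlb] at h4
    have h4 : κ * L * Real.log b * (1 / (L : ℝ) ^ 2) ≤ κ * Real.log b := by
      have e : κ * L * Real.log b * (1 / (L : ℝ) ^ 2) = κ * Real.log b * (1 / L) := by
        field_simp
      rw [e]
      have h5 : 1 / (L : ℝ) ≤ 1 := by rwa [div_le_one hL0]
      have h6 : 0 ≤ κ * Real.log b := by positivity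
      nlinarith
    have h5 : κ * L * Real.log b + 6 + κ * L * Real.log b * (1 / (L : ℝ) ^ 2) ≤
        (κ / 2 + ε / 2) * ((2 * L + 2) * Real.log b) := by
      have h8 : (κ / 2 + ε / 2) * ((2 * L + 2) * Real.log b) =
          κ * L * Real.log b + ε * L * Real.log b + (κ + ε) * Real.log b := by ring
      have h9 : 0 ≤ (κ + ε) * Real.log b := by positivity
      linarith
    have h6 : (S.card : ℝ) * ((2 * L + 2) * Real.log b) ≤
        (X * (κ / 2 + ε / 2)) * ((2 * L + 2) * Real.log b) := by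
      refine hcheb.trans ?_
      rw [mul_assoc X]
      exact mul_le_mul_of_nonneg_left h5 hX0.le
    exact le_of_mul_le_mul_right h6 (by positivity)
  have hXL : X / L ≤ X * (ε / 2) := by
    rw [div_le_iff₀ hL0, mul_assoc]
    apply le_mul_of_one_le_right hX0.le
    linarith
  calc (1 - κ / 2 - ε) * X = X - X * (κ / 2 + ε / 2) - X * (ε / 2) := by ring
    _ ≤ (B.card : ℝ) := by linarith

/-! ### the digits -/

lemma geo {b : ℕ} (hb : 2 ≤ b) (L : ℕ) : ∑ c ∈ range L, (b - 1) * b ^ (L - c) + b = b ^ (L + 1) := by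
  induction L with
  | zero => simp
  | succ L ih =>
    rw [sum_range_succ']
    have h1 : ∑ c ∈ range L, (b - 1) * b ^ (L + 1 - (c + 1)) = ∑ c ∈ range L, (b - 1) * b ^ (L - c) :=
      sum_congr rfl fun c _ => by rw [Nat.add_sub_add_right]
    rw [h1, Nat.sub_zero]
    obtain ⟨a, rfl⟩ : ∃ a, b = a + 1 := ⟨b - 1, by omega⟩
    rw [Nat.add_sub_cancel] at ih ⊢
    calc ∑ c ∈ range L, a * (a + 1) ^ (L - c) + a * (a + 1) ^ (L + 1) + (a + 1) =
        (∑ c ∈ range L, a * (a + 1) ^ (L - c) + (a + 1)) + a * (a + 1) ^ (L + 1) := by ring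
      _ = (a + 1) ^ (L + 1) + a * (a + 1) ^ (L + 1) := by rw [ih]
      _ = (a + 1) ^ (L + 1 + 1) := by ring

/-- the last digit and the middle digit are `1` -/
lemma pv_mid {b : ℕ} (hb : 2 ≤ b) (L : ℕ) (m : Fin L → Fin b × Fin 1) :
    pv b b 1 L m % b = 1 ∧ pv b b 1 L m / b ^ (L + 1) % b = 1 := by
  obtain ⟨K, hK⟩ : ∃ K, K = ∑ c : Fin L, ((m c).1 : ℕ) * b ^ (c : ℕ) := ⟨_, rfl⟩
  obtain ⟨low, hlow⟩ : ∃ low, low = ∑ c : Fin L, ((m c).1 : ℕ) * b ^ (L - c) := ⟨_, rfl⟩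
  have h1 : low + b ≤ b ^ (L + 1) := by
    rw [← geo hb L, hlow, ← Fin.sum_univ_eq_sum_range (fun c => (b - 1) * b ^ (L - c)) L]
    apply Nat.add_le_add_right
    apply sum_le_sum
    intro c _
    apply Nat.mul_le_mul_right
    have := (m c).1.2
    omega
  have h2 : pv b b 1 L m = b ^ (L + 1) * (1 + b * (b ^ L + K)) + (low + 1) := by
    unfold pv fr
    have h3 : ∀ c : Fin L, (((m c).1 : ℕ) + ((m c).2 : ℕ)) * (b ^ (L + c + 2) + b ^ (L - c)) =
        b ^ (L + 2) * (((m c).1 : ℕ) * b ^ (c : ℕ)) + ((m c).1 : ℕ) * b ^ (L - c) := by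
      intro c
      have h4 : ((m c).2 : ℕ) = 0 := by omega
      rw [h4, add_zero]
      ring
    rw [sum_congr rfl fun c _ => h3 c, sum_add_distrib, ← mul_sum, ← hK, ← hlow]
    ring
  have hbp : 0 < b ^ (L + 1) := by positivity
  constructor
  · have h3 : b ∣ low := by
      rw [hlow]
      refine dvd_sum fun c _ => Dvd.dvd.mul_left ?_ _
      exact dvd_pow_self b (by have := c.2; omega)
    obtain ⟨a, ha⟩ := h3
    rw [h2, ha]
    have h4 : b ^ (L + 1) * (1 + b * (b ^ L + K)) + (b * a + 1) =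
        b * (b ^ L * (1 + b * (b ^ L + K)) + a) + 1 := by ring
    rw [h4, Nat.mul_add_mod, Nat.mod_eq_of_lt (by omega)]
  · rw [h2, Nat.mul_add_div hbp, Nat.div_eq_of_lt (by omega), add_zero, add_comm 1,
      Nat.mul_add_mod, Nat.mod_eq_of_lt (by omega)]

end Pool.Agent.U744.PF
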