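import Mathlib
import Pool.Agent.U744.PF.Prop
import Pool.Agent.W139.PX.E2

/-!
# A positive proportion of the palindromes have a large prime factor: the final steps
-/

set_option autoImplicit false

namespace Pool.Agent.U744.PF

open Finset Filter Topology Pool.Agent.W89.PW Pool.Agent.W139.PX

/-- the palindromes in the base `b` with `2 N + 1` digits, the last digit `1`, the middle digit `1`
and a prime factor above `n ^ θ` -/
noncomputable def Cl (b N : ℕ) (θ : ℝ) : Finset ℕ := by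
  classical
  exact (range (b ^ (2 * N + 1))).filter fun n => b ^ (2 * N) ≤ n ∧
    (Nat.digits b n).reverse = Nat.digits b n ∧ n % b = 1 ∧ n / b ^ N % b = 1 ∧
    ∃ p : ℕ, p.Prime ∧ p ∣ n ∧ (n : ℝ) ^ θ < p

lemma mem_Cl {b N : ℕ} {θ : ℝ} {n : ℕ} : n ∈ Cl b N θ ↔ n < b ^ (2 * N + 1) ∧ b ^ (2 * N) ≤ n ∧
    (Nat.digits b n).reverse = Nat.digits b n ∧ n % b = 1 ∧ n / b ^ N % b = 1 ∧
    ∃ p : ℕ, p.Prime ∧ p ∣ n ∧ (n : ℝ) ^ θ < p := by
  classical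
  unfold Cl
  rw [mem_filter, mem_range]

theorem dense {b : ℕ} (hb : 2 ≤ b) {κ : ℝ} (hκ0 : 0 < κ) (hBV : BVW b b 1 κ) (hSq : SqW b b 1 κ)
    {θ : ℝ} (hθ0 : 0 ≤ θ) (hθ : 2 * θ < κ) {ε : ℝ} (hε : 0 < ε) :
    ∀ᶠ N : ℕ in atTop, (1 - κ / 2 - ε) * (b : ℝ) ^ (N - 1) ≤ ((Cl b N θ).card : ℝ) := by
  classical
  have hbR : (2 : ℝ) ≤ b := by exact_mod_cast hb
  have h2 : ∀ᶠ L : ℕ in atTop, 3 * θ ≤ (κ - 2 * θ) * (L : ℝ) :=
    ((tendsto_natCast_atTop_atTop (R := ℝ)).const_mul_atTop (by linarith)).eventually_ge_atTop _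
  have h3 := largeG (s := b) (t := 1) hb (by omega) le_rfl rfl hκ0 hBV hSq hε
  have key : ∀ᶠ L : ℕ in atTop, (1 - κ / 2 - ε) * (b : ℝ) ^ L ≤ ((Cl b (L + 1) θ).card : ℝ) := by
    filter_upwards [h2, h3] with L h2 h3
    rw [Nat.cast_one, mul_one] at h3
    refine h3.trans ?_
    have h4 : ((univ : Finset (Fin L → Fin b × Fin 1)).filter (fun m => ∃ p : ℕ, p.Prime ∧
        p ∣ pv b b 1 L m ∧ (b : ℝ) ^ (κ * L) < p)).card ≤ (Cl b (L + 1) θ).card := by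
      apply card_le_card_of_injOn (pv b b 1 L)
      · intro m hm
        rw [mem_coe, mem_filter] at hm
        obtain ⟨-, p, hp1, hp2, hp3⟩ := hm
        obtain ⟨hd1, hd2, hd3, hd4⟩ := (dig2 (s := b) (t := 1) L hb rfl).1 m
        have hmid := pv_mid hb L m
        rw [mem_coe, mem_Cl]
        refine ⟨by rw [show 2 * (L + 1) + 1 = 2 * L + 3 by ring]; exact hd2,
          by rw [show 2 * (L + 1) = 2 * L + 2 by ring]; exact hd1.le, hd3, hmid.1, hmid.2,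
          p, hp1, hp2, ?_⟩
        refine lt_of_le_of_lt ?_ hp3
        have h10 : ((pv b b 1 L m : ℕ) : ℝ) ≤ (b : ℝ) ^ (2 * L + 3) := by exact_mod_cast hd2.le
        calc ((pv b b 1 L m : ℕ) : ℝ) ^ θ ≤ ((b : ℝ) ^ (2 * L + 3)) ^ θ :=
              Real.rpow_le_rpow (by positivity) h10 hθ0
          _ = (b : ℝ) ^ (((2 * L + 3 : ℕ) : ℝ) * θ) := by
              rw [← Real.rpow_natCast, ← Real.rpow_mul (by linarith)]
          _ ≤ (b : ℝ) ^ (κ * L) := by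
              apply Real.rpow_le_rpow_of_exponent_le (by linarith)
              push_cast
              linarith
      · intro m _ m' _ h5
        exact pv_inj_unif hb h5
    exact_mod_cast h4
  obtain ⟨L₀, hL₀⟩ := eventually_atTop.1 key
  filter_upwards [eventually_ge_atTop (L₀ + 1)] with N hN
  obtain ⟨L, rfl⟩ : ∃ L, N = L + 1 := ⟨N - 1, by omega⟩
  rw [Nat.add_sub_cancel]
  exact hL₀ L (by omega)

lemma lvl {b : ℕ} (hb : 2 ≤ b) {H CM κ : ℝ} (hMaj : MajP b b 1 H CM) (hH0 : 0 < H)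
    (hHb : 1 ≤ b * H) (hCM : 0 < CM) (hκ0 : 0 < κ) (hκH : (b : ℝ) ^ κ * H < 1) :
    BVW b b 1 κ ∧ SqW b b 1 κ := by
  have hb1 : (1 : ℝ) < b := by exact_mod_cast (by omega : 1 < b)
  have hm4 : (b : ℝ) * m4 b 1 < 1 := m4_unif hb
  have hκ1 : κ < 1 := by
    by_contra hcon
    push Not at hcon
    have h1 : (b : ℝ) ≤ (b : ℝ) ^ κ := by
      calc (b : ℝ) = (b : ℝ) ^ (1 : ℝ) := (Real.rpow_one _).symm
        _ ≤ _ := Real.rpow_le_rpow_of_exponent_le hb1.le hcon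
    have h2 : (b : ℝ) * H ≤ (b : ℝ) ^ κ * H := mul_le_mul_of_nonneg_right h1 hH0.le
    linarith
  have hPt : PtW b b 1 := Pool.Agent.W571.PW.Pt.main b b 1 hb hb le_rfl rfl
  have hBig : BigW b b 1 κ := bigW_of_majP hb (by omega) le_rfl rfl hm4 hMaj hH0 hHb hCM hκ0 hκH
  exact ⟨bvW2 hb (by omega) le_rfl hPt hκ0 hκ1 hBig,
    sqW_of_majP hMaj hH0 hHb hCM hb (by omega) le_rfl rfl hm4 hκ0 hκH⟩

theorem dense_H {b : ℕ} (hb : 2 ≤ b) {H CM : ℝ} (hMaj : MajP b b 1 H CM) (hH0 : 0 < H)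
    (hHb : 1 ≤ b * H) (hCM : 0 < CM) {θ : ℝ} (hθ0 : 0 ≤ θ) (hθ : (b : ℝ) ^ (2 * θ) * H < 1)
    {ε : ℝ} (hε : 0 < ε) :
    ∀ᶠ N : ℕ in atTop, (1 - θ - ε) * (b : ℝ) ^ (N - 1) ≤ ((Cl b N θ).card : ℝ) := by
  have hb0 : (0 : ℝ) < b := by exact_mod_cast (by omega : 0 < b)
  have h2 : ContinuousAt (fun κ : ℝ => (b : ℝ) ^ κ * H) (2 * θ) :=
    (Real.continuousAt_const_rpow hb0.ne').mul continuousAt_const
  have h3 : ∀ᶠ κ in 𝓝[>] (2 * θ), (b : ℝ) ^ κ * H < 1 :=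
    (h2.eventually (gt_mem_nhds hθ)).filter_mono nhdsWithin_le_nhds
  have h4 : ∀ᶠ κ in 𝓝[>] (2 * θ), κ < 2 * θ + ε :=
    (gt_mem_nhds (by linarith : 2 * θ < 2 * θ + ε)).filter_mono nhdsWithin_le_nhds
  obtain ⟨κ, ⟨hκ1, hκ3⟩, hκ2⟩ := ((h3.and h4).and self_mem_nhdsWithin).exists
  have hκ2' : 2 * θ < κ := hκ2
  have hκ0 : 0 < κ := by linarith
  obtain ⟨hBV, hSq⟩ := lvl hb hMaj hH0 hHb hCM hκ0 hκ1
  filter_upwards [dense hb hκ0 hBV hSq hθ0 hκ2' (half_pos hε)] with N hN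
  refine le_trans (mul_le_mul_of_nonneg_right ?_ (by positivity)) hN
  linarith

/-- every base, exponents below `1 / 4` -/
theorem quarter {b : ℕ} (hb : 2 ≤ b) {θ : ℝ} (hθ0 : 0 ≤ θ) (hθ : θ < 1 / 4) {ε : ℝ} (hε : 0 < ε) :
    ∀ᶠ N : ℕ in atTop, (1 - θ - ε) * (b : ℝ) ^ (N - 1) ≤ ((Cl b N θ).card : ℝ) := by
  have hbR : (2 : ℝ) ≤ b := by exact_mod_cast hb
  have hb0 : (0 : ℝ) < b := by linarith
  obtain ⟨H, hH⟩ : ∃ H : ℝ, H = Real.sqrt (1 / b) := ⟨_, rfl⟩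
  have hH0 : 0 < H := by rw [hH]; exact Real.sqrt_pos.2 (by positivity)
  have hH2 : H ^ 2 = 1 / b := by rw [hH]; exact Real.sq_sqrt (by positivity)
  have hb1 : 1 / (b : ℝ) ≤ 1 := by
    rw [div_le_one hb0]
    linarith
  have hH1 : H ≤ 1 := by
    by_contra hcon
    push Not at hcon
    have h1 : 1 < H ^ 2 := one_lt_pow₀ hcon two_ne_zero
    linarith
  have hHb : 1 ≤ b * H := by
    have h1 : (b : ℝ) * H ^ 2 = 1 := by
      rw [hH2]
      field_simp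
    have h2 : H ^ 2 ≤ H := by nlinarith
    have h3 : (b : ℝ) * H ^ 2 ≤ b * H := mul_le_mul_of_nonneg_left h2 hb0.le
    linarith
  have hMaj : MajP b b 1 H (1 / H ^ 3) := majP_alt hb (by omega) le_rfl le_rfl (by omega) hH0 hH1 (by
    rw [hH2, Nat.cast_one, mul_one])
  have hκ : (b : ℝ) ^ (2 * θ) * H < 1 := by
    rw [hH, Real.sqrt_eq_rpow, one_div, Real.inv_rpow hb0.le]
    rw [← div_eq_mul_inv, div_lt_one (by positivity)]
    exact Real.rpow_lt_rpow_of_exponent_lt (by linarith) (by linarith)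
  exact dense_H hb hMaj hH0 hHb (by positivity) hθ0 hκ hε

/-- large bases -/
theorem big_base {b : ℕ} (hb : 64 ≤ b) {θ : ℝ} (hθ0 : 0 ≤ θ)
    (hθ : (b : ℝ) ^ (2 * θ) * (2 + 2 / Real.pi * Real.log b) < b) {ε : ℝ} (hε : 0 < ε) :
    ∀ᶠ N : ℕ in atTop, (1 - θ - ε) * (b : ℝ) ^ (N - 1) ≤ ((Cl b N θ).card : ℝ) := by
  obtain ⟨h1, h2, h3⟩ := HU_facts hb
  have hb0 : (0 : ℝ) < b := by exact_mod_cast (by omega : 0 < b)
  refine dense_H (by omega) (majP_unif hb) h1 h2 one_pos hθ0 ?_ hε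
  unfold HU
  rw [← mul_div_assoc, div_lt_one hb0]
  exact hθ

/-- the condition holds for all large bases -/
theorem cond_large {θ : ℝ} (hθ : θ < 1 / 2) :
    ∀ᶠ b : ℕ in atTop, (b : ℝ) ^ (2 * θ) * (2 + 2 / Real.pi * Real.log b) < b := by
  have hr : 0 < 1 - 2 * θ := by linarith
  have h1 : ∀ᶠ x : ℝ in atTop, ‖Real.log x‖ ≤ 1 / 2 * ‖x ^ (1 - 2 * θ)‖ :=
    (isLittleO_log_rpow_atTop hr).def (by norm_num)
  have h2 : ∀ᶠ x : ℝ in atTop, 4 < x ^ (1 - 2 * θ) := (tendsto_rpow_atTop hr).eventually_gt_atTop 4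
  have h3 := tendsto_natCast_atTop_atTop (R := ℝ)
  filter_upwards [h3.eventually h1, h3.eventually h2, eventually_ge_atTop 1] with b h1 h2 hb
  have hb1 : (1 : ℝ) ≤ b := by exact_mod_cast hb
  have hb0 : (0 : ℝ) < b := by linarith
  have hlog : 0 ≤ Real.log b := Real.log_nonneg hb1
  rw [Real.norm_of_nonneg hlog, Real.norm_of_nonneg (by positivity)] at h1
  have hpi : 2 / Real.pi ≤ 1 := by
    rw [div_le_one Real.pi_pos]
    linarith [Real.pi_gt_three]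
  have h4 : 2 + 2 / Real.pi * Real.log b < (b : ℝ) ^ (1 - 2 * θ) := by
    have h5 : 2 / Real.pi * Real.log b ≤ 1 * Real.log b := mul_le_mul_of_nonneg_right hpi hlog
    linarith
  have h5 : (0 : ℝ) < (b : ℝ) ^ (2 * θ) := Real.rpow_pos_of_pos hb0 _
  calc (b : ℝ) ^ (2 * θ) * (2 + 2 / Real.pi * Real.log b)
      < (b : ℝ) ^ (2 * θ) * (b : ℝ) ^ (1 - 2 * θ) := mul_lt_mul_of_pos_left h4 h5
    _ = b := by
        rw [← Real.rpow_add hb0, show 2 * θ + (1 - 2 * θ) = 1 by ring, Real.rpow_one]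

end Pool.Agent.U744.PF
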